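import Pool.Agent.W972.AW.Final

/-!
# The Anderson-Weber strategy is not asymptotically optimal (MP_7e9b7a_co, Q1)

The definitions are in `Pool.Agent.W972.AW.Defs`: walk schedules, the meeting time, the expected
meeting time `meanTime D` of two players using the symmetric strategy `D` (the relative labelling
being uniformly random), the Anderson-Weber strategy `awStrategy n θ` and the least expected meeting
time `awBest n` of an Anderson-Weber strategy.

The new strategy (`Pool.Agent.W972.AW.New`) plays in blocks of `6 N` steps, `N = ⌊(n - 1) / 2⌋`.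
At the start of a block a player relabels the locations by a fresh uniformly random permutation; this
gives her a home (label `0`) and two halves of `N` labels each.  She picks one of nine words of length
six over the letters S (stay at home for `N` steps), U and V (tour the first, the second half), and a
shift `r < M = ⌊(n - 1) / 12⌋`: in half-block number `k` the tour of a half is made cyclically from the
starting point `k r`.  The words SSSSSS, SSSSUV, SSUVSS, SSUVVU, UVUVUV, UVUVSS, USSVSV, UVSSSS, UVSSUV
have the weights 148, 449, 436, 1391, 4258, 1400, 140, 388, 1390 (in units of 1/10000).  So the player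
either stays or tours in each third of the block, but her choices in the three thirds are correlated,
her home and her halves are kept for the whole block, and sometimes the second tour is made in the
other order of the halves, or is split.

The survival probability of two such players after `T` steps of the block is bounded by a sum over pairs
of words.  For a pair of words the event that the players do not meet says that a uniformly random
bijection avoids a set of pairs of labels: the star of one home and the labels toured by the other
player in the meantime (for each of the two homes), and the set of the pairs of labels visited when both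
are touring, which are different for different times if the shifts are different.  The lemma
`Pool.Agent.W972.AW.q_union_le` bounds the probability of avoiding the union by the product of the
probabilities, up to `O(1/n)`.
-/

namespace Pool.Agent.Results.MP_7e9b7a_co.AndersonWeberNotOptimal

open MeasureTheory Filter Topology
open scoped ENNReal NNReal
open Pool.Agent.W972.AW

theorem aw_tendsto : Tendsto (fun n : ℕ => awBest (n + 1) / ((n + 1 : ℕ) : ℝ≥0∞)) atTop
    (𝓝 (ENNReal.ofReal cAW)) := by
  have hc : 0 < cAW := by linarith [cAW_bounds.1]
  refine (ENNReal.tendsto_nhds ENNReal.ofReal_ne_top).2 fun ε hε => ?_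
  -- a real `δ` with `0 < δ < cAW` and `ofReal δ ≤ ε`
  obtain ⟨δ, hδ, hδε, hδc⟩ : ∃ δ : ℝ, 0 < δ ∧ ENNReal.ofReal δ ≤ ε ∧ δ < cAW := by
    rcases eq_or_ne ε ⊤ with h | h
    · exact ⟨cAW / 2, by linarith, by rw [h]; exact le_top, by linarith⟩
    · refine ⟨min ε.toReal (cAW / 2), lt_min (ENNReal.toReal_pos hε.ne' h) (by linarith), ?_, ?_⟩
      · calc ENNReal.ofReal (min ε.toReal (cAW / 2)) ≤ ENNReal.ofReal ε.toReal :=
              ENNReal.ofReal_le_ofReal (min_le_left _ _)
          _ = ε := ENNReal.ofReal_toReal h
      · exact (min_le_right _ _).trans_lt (by linarith)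
  obtain ⟨n₀, h0⟩ := awBest_limit δ hδ
  filter_upwards [eventually_ge_atTop n₀] with n hn
  obtain ⟨h1, h2⟩ := h0 (n + 1) (by omega)
  have hn0 : ((n + 1 : ℕ) : ℝ≥0∞) ≠ 0 := by exact_mod_cast n.succ_ne_zero
  have hnt : ((n + 1 : ℕ) : ℝ≥0∞) ≠ ⊤ := ENNReal.natCast_ne_top _
  have hcast : ENNReal.ofReal ((n + 1 : ℕ) : ℝ) = ((n + 1 : ℕ) : ℝ≥0∞) := ENNReal.ofReal_natCast _
  constructor
  · rw [ENNReal.le_div_iff_mul_le (Or.inl hn0) (Or.inl hnt)]
    refine le_trans ?_ h1
    rw [ENNReal.ofReal_mul (by linarith), hcast, ENNReal.ofReal_sub _ hδ.le]
    gcongr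
  · rw [ENNReal.div_le_iff_le_mul (Or.inl hn0) (Or.inl hnt)]
    refine h2.trans ?_
    rw [ENNReal.ofReal_mul (by linarith), hcast, ENNReal.ofReal_add hc.le hδ.le]
    gcongr

/-- The least expected meeting time of an Anderson-Weber strategy for `n` locations, divided by `n`,
tends to a constant `c` with `0.82888 < c < 0.82889`, but for all large `n` there is a symmetric
strategy with expected meeting time at most `0.82876 n`. -/
theorem result :
    ∃ c : ℝ, c = (Real.exp (-1) + √((1 - Real.exp (-1)) * (3 - Real.exp (-1)))) / 2 ∧
      0.82888 < c ∧ c < 0.82889 ∧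
      Tendsto (fun n : ℕ => awBest (n + 1) / ((n + 1 : ℕ) : ℝ≥0∞)) atTop (𝓝 (ENNReal.ofReal c)) ∧
      ∀ᶠ n : ℕ in atTop, ∃ D : Measure (Schedule n), IsProbabilityMeasure D ∧
        meanTime D ≤ ENNReal.ofReal (0.82876 * n) := by
  refine ⟨cAW, rfl, cAW_bounds.1, cAW_bounds.2, aw_tendsto, ?_⟩
  obtain ⟨n₀, h0⟩ := new_value
  filter_upwards [eventually_ge_atTop (max n₀ 1)] with n hn
  have hn0 : n₀ ≤ n := (le_max_left _ _).trans hn
  haveI : NeZero n := ⟨by have := (le_max_right _ _).trans hn; omega⟩
  obtain ⟨hM, h⟩ := h0 n hn0
  haveI : Nonempty (Fin (MM n)) := ⟨⟨0, hM⟩⟩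
  exact ⟨newStrategy n (NN n) (MM n) hM, isProb_blockStrategy _ _ _, h⟩

end Pool.Agent.Results.MP_7e9b7a_co.AndersonWeberNotOptimal
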